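import Mathlib
import Pool.Agent.X188.Ker

/-!
# MP_72b8ed_an: a non-diagonal holomorphic certificate factor on the full domain `Ω¹_ϑ`

For `g = 1` and `k(z,w) = (1 - z w̄)/(1 - 2 z w̄)` (so `ϑ_b = 1` for all `b ≥ 1` and
`Ω¹_ϑ = {|z|² < 1/2}`) the kernels `h(z,w) = f(z) conj f(w) / 4` with `f(z) = z + z²` and
`s = k / (1 - h)` give a factorisation `k = (1 - h) s` on `Ω¹_ϑ` with `s` a holomorphic, normalised
complete Pick kernel which is not diagonal.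
-/

open scoped ComplexOrder ComplexConjugate Matrix
open Matrix Filter Topology

namespace Pool.Agent.Results.MP_72b8ed_an.NonDiagonal

/-- `k` is a kernel on `Ω`: positive semidefinite on `Ω × Ω`. -/
def IsKernelOn (Ω : Set ℂ) (k : ℂ → ℂ → ℂ) : Prop :=
  (Matrix.of fun x y : Ω => k x y).PosSemidef

/-- `k` is holomorphic in `z` and antiholomorphic in `w` on `Ω × Ω` (jointly). -/
def IsHolomorphicOn (Ω : Set ℂ) (k : ℂ → ℂ → ℂ) : Prop :=
  DifferentiableOn ℂ (fun p : ℂ × ℂ => k p.1 (conj p.2)) {p | p.1 ∈ Ω ∧ conj p.2 ∈ Ω}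

/-- The expansion of `k` at the origin is `∑ c_n z^n w̄^n`. -/
def HasDiagonalExpansion (k : ℂ → ℂ → ℂ) (c : ℕ → ℝ) : Prop :=
  ∃ ε : ℝ, 0 < ε ∧ ∀ z w : ℂ, ‖z‖ < ε → ‖w‖ < ε →
    HasSum (fun n : ℕ => (c n : ℂ) * z ^ n * (conj w) ^ n) (k z w)

/-- `k` is diagonal: its expansion at the origin is `∑ c_n z^n w̄^n` with all `c_n > 0`. -/
def IsDiagonal (k : ℂ → ℂ → ℂ) : Prop :=
  ∃ c : ℕ → ℝ, (∀ n, 0 < c n) ∧ HasDiagonalExpansion k c

/-- Normalised at the origin. -/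
def IsNormalizedAt0 (Ω : Set ℂ) (s : ℂ → ℂ → ℂ) : Prop := ∀ z ∈ Ω, s z 0 = 1

/-- `s` (normalised at `0`) is a complete Pick kernel on `Ω`: `s` is a kernel without zeros and
`1 - 1/s` is a kernel. -/
def IsCPKernelOn (Ω : Set ℂ) (s : ℂ → ℂ → ℂ) : Prop :=
  IsKernelOn Ω s ∧ (∀ z ∈ Ω, ∀ w ∈ Ω, s z w ≠ 0) ∧ IsKernelOn Ω (fun z w => 1 - 1 / s z w)

/-- The master certificate `ϑ` of the coefficient sequence `k_0 = 1, k_1, k_2, …` (case `g = 1`):
`ϑ_0 = 0`, `ϑ_1 = k_1`, `ϑ_b = max {0, k_b - ∑_{u+v=b, u,v ≥ 1} ϑ_u k_v}` for `b ≥ 2`. -/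
noncomputable def master (c : ℕ → ℝ) : ℕ → ℝ
  | 0 => 0
  | 1 => c 1
  | (m + 2) => max 0 (c (m + 2) - ∑ i : Fin (m + 1), master c (i + 1) * c (m + 1 - i))
decreasing_by omega

/-- `Ω_ϑ`, the interior of the set where the terms `ϑ_b |x|^{2b}` are bounded. -/
def OmegaTheta (θ : ℕ → ℝ) : Set ℂ :=
  interior {x : ℂ | BddAbove (Set.range fun b : ℕ => θ b * ‖x‖ ^ (2 * b))}

/-- `Ω¹_ϑ = {x ∈ Ω_ϑ : ∑_{b ≠ 0} ϑ_b |x|^{2b} < 1}` (note that `ϑ_0 = 0`). -/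
def OmegaOne (θ : ℕ → ℝ) : Set ℂ :=
  {x : ℂ | x ∈ OmegaTheta θ ∧ Summable (fun b : ℕ => θ b * ‖x‖ ^ (2 * b)) ∧
    ∑' b : ℕ, θ b * ‖x‖ ^ (2 * b) < 1}

noncomputable section

/-- the coefficients of `k` -/
def cc (n : ℕ) : ℝ := if n = 0 then 1 else 2 ^ (n - 1)

/-- the domain -/
def Om : Set ℂ := {z : ℂ | 2 * ‖z‖ ^ 2 < 1}

/-- the kernel `k` -/
def kk (z w : ℂ) : ℂ := (1 - z * conj w) / (1 - 2 * (z * conj w))

/-- the kernel `h` -/
def hh (z w : ℂ) : ℂ := (z + z ^ 2) / 2 * conj ((w + w ^ 2) / 2)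

/-- the kernel `s` -/
def ss (z w : ℂ) : ℂ := kk z w / (1 - hh z w)

lemma norm_mul_lt {z w : ℂ} (hz : z ∈ Om) (hw : w ∈ Om) : ‖z * conj w‖ < 1 / 2 := by
  have h1 : 2 * ‖z‖ ^ 2 < 1 := hz
  have h2 : 2 * ‖w‖ ^ 2 < 1 := hw
  rw [norm_mul, RCLike.norm_conj]
  nlinarith [sq_nonneg (‖z‖ - ‖w‖)]

lemma norm_half_lt {z : ℂ} (hz : z ∈ Om) : ‖(z + z ^ 2) / 2‖ < 1 := by
  have h1 : 2 * ‖z‖ ^ 2 < 1 := hz
  have h0 := norm_nonneg z
  have h2 : ‖z‖ < 1 := by nlinarith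
  rw [norm_div]
  have h3 : ‖z + z ^ 2‖ ≤ ‖z‖ + ‖z‖ ^ 2 := by
    refine (norm_add_le _ _).trans ?_
    rw [norm_pow]
  have h4 : ‖(2 : ℂ)‖ = 2 := by norm_num
  rw [h4]
  linarith

lemma norm_hh_lt {z w : ℂ} (hz : z ∈ Om) (hw : w ∈ Om) : ‖hh z w‖ < 1 := by
  rw [hh, norm_mul, RCLike.norm_conj]
  have h1 := norm_half_lt hz
  have h2 := norm_half_lt hw
  have := norm_nonneg ((z + z ^ 2) / 2)
  have := norm_nonneg ((w + w ^ 2) / 2)
  nlinarith

lemma one_sub_ne {x : ℂ} (h : ‖x‖ < 1) : 1 - x ≠ 0 := by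
  intro h0
  have : x = 1 := by linear_combination -h0
  rw [this] at h
  simp at h

lemma d1 {z w : ℂ} (hz : z ∈ Om) (hw : w ∈ Om) : 1 - z * conj w ≠ 0 :=
  one_sub_ne ((norm_mul_lt hz hw).trans (by norm_num))

lemma d2 {z w : ℂ} (hz : z ∈ Om) (hw : w ∈ Om) : 1 - 2 * (z * conj w) ≠ 0 := by
  refine one_sub_ne ?_
  rw [norm_mul]
  have := norm_mul_lt hz hw
  norm_num
  rw [norm_mul, RCLike.norm_conj] at this
  linarith

lemma d3 {z w : ℂ} (hz : z ∈ Om) (hw : w ∈ Om) : 1 - hh z w ≠ 0 := one_sub_ne (norm_hh_lt hz hw)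

lemma kk_ne {z w : ℂ} (hz : z ∈ Om) (hw : w ∈ Om) : kk z w ≠ 0 :=
  div_ne_zero (d1 hz hw) (d2 hz hw)

lemma ss_ne {z w : ℂ} (hz : z ∈ Om) (hw : w ∈ Om) : ss z w ≠ 0 :=
  div_ne_zero (kk_ne hz hw) (d3 hz hw)

lemma isOpen_Om : IsOpen Om := by
  have : Continuous fun z : ℂ => 2 * ‖z‖ ^ 2 := by fun_prop
  exact isOpen_lt this continuous_const

lemma Om_eq : Om = Metric.ball (0 : ℂ) (Real.sqrt (1 / 2)) := by
  ext z
  rw [Metric.mem_ball, dist_zero_right, Real.lt_sqrt (norm_nonneg z)]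
  change 2 * ‖z‖ ^ 2 < 1 ↔ _
  constructor <;> intro h <;> linarith

lemma conn_Om : IsConnected Om := by
  rw [Om_eq]
  refine ⟨⟨0, Metric.mem_ball_self (Real.sqrt_pos.mpr (by norm_num))⟩, ?_⟩
  exact (convex_ball _ _).isPreconnected

lemma zero_mem : (0 : ℂ) ∈ Om := by simp [Om]

/-- `s` is a kernel -/
lemma ker_hh : IsKernelOn Om hh := X188.ker_dyad fun x : Om => ((x : ℂ) + (x : ℂ) ^ 2) / 2

lemma ker_inv : IsKernelOn Om (fun z w => (1 - hh z w)⁻¹) :=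
  X188.ker_szego (F := fun x : Om => ((x : ℂ) + (x : ℂ) ^ 2) / 2) fun x => norm_half_lt x.2

lemma sqrt2 : ((Real.sqrt 2 : ℝ) : ℂ) * ((Real.sqrt 2 : ℝ) : ℂ) = 2 := by
  rw [← Complex.ofReal_mul, Real.mul_self_sqrt (by norm_num)]
  norm_num

lemma ker_kk : IsKernelOn Om kk := by
  have h1 := X188.ker_szego (F := fun x : Om => ((Real.sqrt 2 : ℝ) : ℂ) * (x : ℂ)) fun x => by
    have hx : 2 * ‖(x : ℂ)‖ ^ 2 < 1 := x.2
    rw [norm_mul, Complex.norm_real, Real.norm_eq_abs, abs_of_nonneg (Real.sqrt_nonneg _)]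
    have h2 : (Real.sqrt 2 * ‖(x : ℂ)‖) ^ 2 < 1 ^ 2 := by
      rw [mul_pow, Real.sq_sqrt (by norm_num)]
      simpa using hx
    exact (sq_lt_sq₀ (by positivity) (by norm_num)).mp h2
  have h2 := (X188.ker_one (X := Om)).add h1
  have h3 : (0 : ℂ) ≤ 1 / 2 := by
    rw [show (1 / 2 : ℂ) = ((1 / 2 : ℝ) : ℂ) by norm_num, Complex.zero_le_real]
    norm_num
  have h4 := h2.smul h3
  refine (congrArg Matrix.PosSemidef ?_).mp h4
  ext x y
  simp only [Matrix.smul_apply, Matrix.add_apply, Matrix.of_apply, smul_eq_mul, kk]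
  have e1 := d2 x.2 y.2
  have e2 : (Real.sqrt 2 : ℂ) * (x : ℂ) * conj ((Real.sqrt 2 : ℂ) * (y : ℂ))
      = 2 * ((x : ℂ) * conj (y : ℂ)) := by
    rw [map_mul, Complex.conj_ofReal]
    linear_combination ((x : ℂ) * conj (y : ℂ)) * sqrt2
  rw [e2]
  generalize (x : ℂ) * conj (y : ℂ) = t at *
  field_simp
  ring

lemma ker_ss : IsKernelOn Om ss := by
  have h := ker_kk.hadamard ker_inv
  refine (congrArg Matrix.PosSemidef ?_).mp h
  ext x y
  simp only [Matrix.hadamard_apply, Matrix.of_apply, ss, div_eq_mul_inv]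

lemma ker_cert : IsKernelOn Om (fun z w => 1 - 1 / ss z w) := by
  have h1 : (Matrix.of fun x y : Om => (1 - (x : ℂ) * conj (y : ℂ))⁻¹).PosSemidef :=
    X188.ker_szego (F := fun x : Om => (x : ℂ)) fun x => by
      have hx : 2 * ‖(x : ℂ)‖ ^ 2 < 1 := x.2
      have := norm_nonneg (x : ℂ)
      nlinarith
  have h2 := X188.ker_dyad fun x : Om => 1 - (x : ℂ)
  have h3 := X188.ker_dyad fun x : Om => (x : ℂ)
  have h4 := ((h2.hadamard h1).add (X188.ker_one.add X188.ker_one)).hadamard h3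
  have hq : (0 : ℂ) ≤ 1 / 4 := by
    rw [show (1 / 4 : ℂ) = ((1 / 4 : ℝ) : ℂ) by norm_num, Complex.zero_le_real]
    norm_num
  have h5 := (h4.smul hq).add (ker_hh.add ker_hh)
  refine (congrArg Matrix.PosSemidef ?_).mp h5
  ext x y
  simp only [Matrix.smul_apply, Matrix.add_apply, Matrix.hadamard_apply, Matrix.of_apply,
    smul_eq_mul, ss, kk]
  have e1 := d1 x.2 y.2
  have e2 := d2 x.2 y.2
  have e3 := d3 x.2 y.2
  have e4 : 1 / ((1 - (x : ℂ) * conj (y : ℂ)) / (1 - 2 * ((x : ℂ) * conj (y : ℂ))) /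
      (1 - hh x y)) = (1 - 2 * ((x : ℂ) * conj (y : ℂ))) * (1 - hh x y) /
        (1 - (x : ℂ) * conj (y : ℂ)) := by
    field_simp
  rw [e4]
  have e5 : conj (1 - (y : ℂ)) = 1 - conj (y : ℂ) := by simp
  rw [e5]
  have e6 : hh x y = (x : ℂ) * conj (y : ℂ) * (1 + x) * (1 + conj (y : ℂ)) / 4 := by
    rw [hh]
    simp only [map_div₀, map_add, map_pow, map_ofNat]
    ring
  rw [e6]
  generalize conj (y : ℂ) = v at *
  generalize (x : ℂ) = u at *
  field_simp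
  ring

lemma isCP_ss : IsCPKernelOn Om ss := ⟨ker_ss, fun _ hz _ hw => ss_ne hz hw, ker_cert⟩

lemma holo_kk : IsHolomorphicOn Om kk := by
  intro p hp
  have h1 := d2 hp.1 hp.2
  simp only [Complex.conj_conj] at h1
  have h2 : DifferentiableAt ℂ (fun p : ℂ × ℂ => (1 - p.1 * p.2) / (1 - 2 * (p.1 * p.2))) p := by
    simp only [div_eq_mul_inv]
    refine DifferentiableAt.fun_mul (by fun_prop) (DifferentiableAt.fun_inv (by fun_prop) h1)
  have h3 : (fun p : ℂ × ℂ => kk p.1 (conj p.2)) =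
      fun p : ℂ × ℂ => (1 - p.1 * p.2) / (1 - 2 * (p.1 * p.2)) := by
    funext p
    simp [kk]
  rw [h3]
  exact h2.differentiableWithinAt

lemma holo_ss : IsHolomorphicOn Om ss := by
  intro p hp
  have h1 := holo_kk p hp
  have h2 := d3 hp.1 hp.2
  have h3 : (fun p : ℂ × ℂ => hh p.1 (conj p.2)) =
      fun p : ℂ × ℂ => (p.1 + p.1 ^ 2) / 2 * ((p.2 + p.2 ^ 2) / 2) := by
    funext p
    simp [hh, map_ofNat]
  have h4 : DifferentiableWithinAt ℂ (fun p : ℂ × ℂ => 1 - hh p.1 (conj p.2))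
      {p | p.1 ∈ Om ∧ conj p.2 ∈ Om} p := by
    have : DifferentiableAt ℂ (fun p : ℂ × ℂ => hh p.1 (conj p.2)) p := by
      rw [h3]; fun_prop
    exact (this.const_sub 1).differentiableWithinAt
  simp only [ss, div_eq_mul_inv]
  exact DifferentiableWithinAt.fun_mul h1 (DifferentiableWithinAt.fun_inv h4 h2)

lemma norm_ss : IsNormalizedAt0 Om ss := by
  intro z _
  simp [ss, kk, hh]

lemma expansion_kk : HasDiagonalExpansion kk cc := by
  refine ⟨1 / 2, by norm_num, fun z w hz hw => ?_⟩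
  have hzw : ‖2 * (z * conj w)‖ < 1 := by
    rw [norm_mul, norm_mul, RCLike.norm_conj]
    have := norm_nonneg z
    have := norm_nonneg w
    norm_num
    nlinarith
  have h1 := (hasSum_geometric_of_norm_lt_one hzw).mul_left (1 / 2 : ℂ)
  have h2 : HasSum (fun n : ℕ => if n = 0 then (1 / 2 : ℂ) else 0) (1 / 2) := hasSum_ite_eq 0 _
  have h3 := h1.add h2
  have h0 : 1 - 2 * (z * conj w) ≠ 0 := one_sub_ne hzw
  have h4 : (1 / 2 : ℂ) * (1 - 2 * (z * conj w))⁻¹ + 1 / 2 = kk z w := by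
    rw [kk]
    generalize z * conj w = t at *
    field_simp
    ring
  rw [h4] at h3
  refine (congrArg (fun f => HasSum f (kk z w)) ?_).mp h3
  funext n
  rcases n with _ | n
  · simp [cc]; norm_num
  · simp only [cc, Nat.succ_ne_zero, if_false, Nat.add_sub_cancel, add_zero]
    push_cast
    rw [mul_pow, mul_pow, pow_succ (2 : ℂ) n]
    ring

lemma cc_pos (n : ℕ) : 0 < cc n := by
  unfold cc
  split_ifs <;> positivity

lemma master_succ (m : ℕ) : master cc (m + 1) = 1 := by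
  induction m using Nat.strong_induction_on with
  | _ m ih =>
    rcases m with _ | m
    · rw [master]; simp [cc]
    · rw [master]
      have h1 : ∑ i : Fin (m + 1), master cc (i + 1) * cc (m + 1 - i) = 2 ^ (m + 1) - 1 := by
        have h2 : ∀ i : Fin (m + 1), master cc (i + 1) * cc (m + 1 - i) = 2 ^ (m - (i : ℕ)) := by
          intro i
          rw [ih i (by omega), one_mul, cc, if_neg (by omega)]
          congr 1
          omega
        have h4 := Finset.sum_range_reflect (fun i => (2 : ℝ) ^ i) (m + 1)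
        simp only [Nat.add_sub_cancel] at h4
        rw [Finset.sum_congr rfl fun i _ => h2 i, Fin.sum_univ_eq_sum_range
          (fun i => (2 : ℝ) ^ (m - i)) (m + 1), h4, geom_sum_eq (by norm_num)]
        norm_num
      rw [h1]
      have h3 : cc (m + 2) = 2 ^ (m + 1) := by
        simp [cc]
      rw [h3]
      norm_num

lemma OmegaOne_subset : OmegaOne (master cc) ⊆ Om := by
  rintro x ⟨-, hsum, hlt⟩
  have h1 : ∀ b : ℕ, master cc (b + 1) * ‖x‖ ^ (2 * (b + 1)) = ‖x‖ ^ 2 * (‖x‖ ^ 2) ^ b := by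
    intro b
    rw [master_succ, one_mul, pow_mul, pow_succ, mul_comm]
  have h2 : Summable fun b : ℕ => ‖x‖ ^ 2 * (‖x‖ ^ 2) ^ b := by
    have := (summable_nat_add_iff 1).mpr hsum
    simpa only [h1] using this
  have h3 : ∑' b : ℕ, master cc b * ‖x‖ ^ (2 * b) = ∑' b : ℕ, ‖x‖ ^ 2 * (‖x‖ ^ 2) ^ b := by
    rw [hsum.tsum_eq_zero_add]
    simp only [h1]
    rw [master, zero_mul, zero_add]
  rw [h3] at hlt
  change 2 * ‖x‖ ^ 2 < 1
  by_cases hx : ‖x‖ ^ 2 = 0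
  · rw [hx]; norm_num
  have hr : 0 < ‖x‖ ^ 2 := lt_of_le_of_ne (by positivity) (Ne.symm hx)
  have hr1 : ‖x‖ ^ 2 < 1 := by
    have h4 : Summable fun b : ℕ => (‖x‖ ^ 2) ^ b := (summable_mul_left_iff hx).mp h2
    have := summable_geometric_iff_norm_lt_one.mp h4
    rwa [Real.norm_of_nonneg hr.le] at this
  rw [tsum_mul_left, tsum_geometric_of_lt_one hr.le hr1] at hlt
  have h5 : 0 < 1 - ‖x‖ ^ 2 := by linarith
  rw [← div_eq_mul_inv, div_lt_one h5] at hlt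
  linarith

lemma not_diagonal_ss : ¬ IsDiagonal ss := by
  rintro ⟨c, -, ε, hε, h⟩
  obtain ⟨x, hx0, hx1⟩ : ∃ x : ℝ, 0 < x ∧ x < min ε (1 / 2) :=
    exists_between (lt_min hε (by norm_num))
  have hxε : x < ε := hx1.trans_le (min_le_left _ _)
  have hx2 : x < 1 / 2 := hx1.trans_le (min_le_right _ _)
  have hn : ‖(x : ℂ)‖ = x := by rw [Complex.norm_real, Real.norm_of_nonneg hx0.le]
  have hn' : ‖-(x : ℂ)‖ = x := by rw [norm_neg, hn]
  have h1 := h x x (by rwa [hn]) (by rwa [hn])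
  have h2 := h (-x) (-x) (by rwa [hn']) (by rwa [hn'])
  have h3 : (fun n : ℕ => (c n : ℂ) * (-(x : ℂ)) ^ n * (conj (-(x : ℂ))) ^ n) =
      fun n : ℕ => (c n : ℂ) * (x : ℂ) ^ n * (conj (x : ℂ)) ^ n := by
    funext n
    rw [map_neg, mul_assoc, mul_assoc, ← mul_pow, ← mul_pow, neg_mul_neg]
  rw [h3] at h2
  have h4 : ss x x = ss (-x) (-x) := h1.unique h2
  have hxm : (x : ℂ) ∈ Om := by
    change 2 * ‖(x : ℂ)‖ ^ 2 < 1
    rw [hn]; nlinarith
  have hxm' : (-x : ℂ) ∈ Om := by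
    change 2 * ‖(-x : ℂ)‖ ^ 2 < 1
    rw [hn']; nlinarith
  have hk : kk (-x) (-x) = kk x x := by simp [kk]
  rw [ss, ss, hk, div_eq_div_iff (d3 hxm hxm) (d3 hxm' hxm')] at h4
  have h5 := mul_left_cancel₀ (kk_ne hxm hxm) h4
  simp only [hh, map_div₀, map_add, map_pow, map_neg, Complex.conj_ofReal, map_ofNat] at h5
  have h6 : ((x : ℂ)) ^ 3 = 0 := by linear_combination h5
  have h7 : x ^ 3 = 0 := by exact_mod_cast h6
  have : 0 < x ^ 3 := by positivity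
  linarith

end

/-- **Theorem.** There are (in one variable, `g = 1`) a domain `Ω ∋ 0`, a normalised diagonal
holomorphic kernel `k` on `Ω` with coefficients `c` and master certificate `ϑ = master c` such that
`Ω¹_ϑ ⊆ Ω`, a kernel `h` on `Ω` and a holomorphic complete Pick kernel `s` on `Ω`, normalised at `0`,
with `k = (1 - h) s` on `Ω × Ω`, such that `s` is not diagonal. -/
theorem result : ∃ (Ω : Set ℂ) (c : ℕ → ℝ) (k h s : ℂ → ℂ → ℂ),
    IsOpen Ω ∧ IsConnected Ω ∧ (0 : ℂ) ∈ Ω ∧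
    IsKernelOn Ω k ∧ IsHolomorphicOn Ω k ∧ (∀ n, 0 < c n) ∧ c 0 = 1 ∧ HasDiagonalExpansion k c ∧
    OmegaOne (master c) ⊆ Ω ∧
    IsKernelOn Ω h ∧
    IsCPKernelOn Ω s ∧ IsNormalizedAt0 Ω s ∧ IsHolomorphicOn Ω s ∧
    (∀ z ∈ Ω, ∀ w ∈ Ω, k z w = (1 - h z w) * s z w) ∧
    ¬ IsDiagonal s := by
  refine ⟨Om, cc, kk, hh, ss, isOpen_Om, conn_Om, zero_mem, ker_kk, holo_kk, cc_pos, by simp [cc],
    expansion_kk, OmegaOne_subset, ker_hh, isCP_ss, norm_ss, holo_ss, ?_, not_diagonal_ss⟩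
  intro z hz w hw
  rw [ss, mul_div_cancel₀ _ (d3 hz hw)]

end Pool.Agent.Results.MP_72b8ed_an.NonDiagonal
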